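import Pool.Agent.H72.CH.Targets
import Pool.Agent.H44.FB.Basics

/-!
# Board chl_modules, row CYC: cycles with given types
-/

set_option autoImplicit false
set_option linter.unusedVariables false

namespace Pool.Agent.H99.CHL

open Pool.Agent.H68.BP Pool.Agent.H58.SF Pool.Agent.H53.NR
open Pool.Agent.H57.AR (tp ty Ty)
open Pool.Agent.H44.FB
open Pool.Agent.H72.CH
open Function

theorem fin_succ_ne {n : ℕ} (k : Fin (n + 2)) : k + 1 ≠ k := by
  intro h
  have h1 : (1 : Fin (n + 2)) = 0 := by
    have h2 : k + 1 = k + 0 := by rw [add_zero]; exact h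
    exact add_left_cancel h2
  exact one_ne_zero h1

/-- the path along all edges of the cycle but one -/
theorem cyc_path (hG : T_GLU) {V : Type} {ρ : Sig} {𝔹 : Str ρ V} {m : ℕ} {lv : V → V → ℕ}
    (hV : HV 𝔹 m lv) {n : ℕ} (p : Fin (n + 2) → Fin 2 → V) (k : Fin (n + 2)) :
    ∃ f : Fin (n + 2) → V, ∀ a, a ≠ k → tp 𝔹 ![f a, f (a + 1)] = tp 𝔹 (p a) := by
  obtain ⟨f0, h0⟩ := hG V ρ 𝔹 m lv hV (n + 1) (fun i => p (k + 1 + i.castSucc))
  refine ⟨fun a => f0 (a - (k + 1)), ?_⟩
  intro a ha
  have h1 : a - (k + 1) ≠ Fin.last (n + 1) := by
    intro h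
    have h2 : a - (k + 1) + 1 = 0 := by rw [h]; exact Fin.last_add_one (n + 1)
    apply ha
    have h3 : a - (k + 1) + 1 = a - k := by abel
    rw [h3] at h2
    exact sub_eq_zero.mp h2
  obtain ⟨i, hi⟩ := Fin.exists_castSucc_eq.mpr h1
  have h4 : a + 1 - (k + 1) = i.succ := by
    have h5 : a + 1 - (k + 1) = a - (k + 1) + 1 := by abel
    rw [h5, ← hi, Fin.coeSucc_eq_succ]
  have h6 : k + 1 + i.castSucc = a := by
    rw [hi]
    abel
  have h7 := h0 i
  rw [h6] at h7
  show tp 𝔹 ![f0 (a - (k + 1)), f0 (a + 1 - (k + 1))] = tp 𝔹 (p a)
  rw [h4, ← hi]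
  exact h7

theorem pf_CYC (hG : T_GLU) : T_CYC := by
  classical
  intro V ρ 𝔹 m lv hV N hN n p lam hl hp hU
  have hlv := hV.lev.pl
  obtain ⟨f, hf1, hf2⟩ := hN (Fin (n + 2)) lam (Fin (n + 2)) (fun k => {k, k + 1})
    (fun k l z => 𝔹 l (fun i => if z i = k then p k 0 else p k 1)) hl (by
      intro U hUc
      obtain ⟨k, hk, hE⟩ := hU U hUc
      obtain ⟨f, hf⟩ := cyc_path hG hV p k
      have hstep : ∀ a, a ≠ k → lv (f a) (f (a + 1)) = lam a (a + 1) := by
        intro a ha
        have h1 := hV.inv _ _ (hf a ha)
        simp only [Matrix.cons_val_zero, Matrix.cons_val_one] at h1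
        rw [hp a]
        exact h1
      refine ⟨f, ?_, ?_⟩
      · intro x _ y _
        have h2 : ∀ u v, Relation.EqvGen (fun a b => a ≠ k ∧ b = a + 1 ∧ lam x y ≤ lam a b) u v →
            lam x y ≤ lv (f u) (f v) := by
          intro u v huv
          induction huv with
          | rel a b h =>
            obtain ⟨h3, h4, h5⟩ := h
            subst h4
            rw [hstep a h3]
            exact h5
          | refl a =>
            rw [hlv.self]
            exact hl.le x y
          | symm a b _ ih =>
            rw [hlv.sym]
            exact ih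
          | trans a b c _ _ ih1 ih2 => exact (le_min ih1 ih2).trans (hlv.ult _ _ _)
        exact h2 x y (hE x y)
      · intro a
        by_cases hak : a = k
        · subst hak
          have hone : ∀ x ∈ U, ∀ y ∈ U, x ∈ ({a, a + 1} : Set (Fin (n + 2))) →
              y ∈ ({a, a + 1} : Set (Fin (n + 2))) → x = y := by
            intro x hx y hy hxa hya
            rcases hxa with hxa | hxa <;> rcases hya with hya | hya
            · rw [hxa, hya]
            · exact absurd ⟨hxa ▸ hx, hya ▸ hy⟩ hk
            · exact absurd ⟨hya ▸ hy, hxa ▸ hx⟩ hk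
            · rw [hxa, hya]
          refine ⟨?_, ?_⟩
          · intro x hx y hy hxa hya
            rw [hone x hx y hy hxa hya, hlv.self, hl.self]
          · intro l z hz
            have i0 : Fin (ρ.ar l) := ⟨0, hV.ar l⟩
            have hc : ∀ i, z i = z i0 := fun i =>
              hone _ (hz i).1 _ (hz i0).1 (hz i).2 (hz i0).2
            have e1 : (fun i => f (z i)) = fun _ => f (z i0) := funext fun i => by rw [hc i]
            have e2 : (fun i => if z i = a then p a 0 else p a 1) =
                fun _ => if z i0 = a then p a 0 else p a 1 := funext fun i => by rw [hc i]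
            show 𝔹 l (fun i => f (z i)) ↔ 𝔹 l (fun i => if z i = a then p a 0 else p a 1)
            rw [e1, e2]
            have h3 := congrFun (hV.one (f (z i0)) (if z i0 = a then p a 0 else p a 1)) l
            exact iff_of_eq h3
        · have hfa := hf a hak
          refine ⟨?_, ?_⟩
          · intro x _ y _ hxa hya
            rcases hxa with hxa | hxa <;> rcases hya with hya | hya
            · rw [hxa, hya, hlv.self, hl.self]
            · rw [hxa, hya]
              exact hstep a hak
            · rw [hxa, hya, hlv.sym, hl.sym]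
              exact hstep a hak
            · rw [hxa, hya, hlv.self, hl.self]
          · intro l z hz
            have h3 := rel_of_tp hfa l (fun i => if z i = a then (0 : Fin 2) else 1)
            have e1 : (fun i => ![f a, f (a + 1)] (if z i = a then (0 : Fin 2) else 1)) =
                fun i => f (z i) := by
              funext i
              by_cases hi : z i = a
              · rw [if_pos hi, hi]
                rfl
              · rw [if_neg hi]
                rcases (hz i).2 with h4 | h4
                · exact absurd h4 hi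
                · rw [h4]
                  rfl
            have e2 : (fun i => p a (if z i = a then (0 : Fin 2) else 1)) =
                fun i => if z i = a then p a 0 else p a 1 := by
              funext i
              by_cases hi : z i = a
              · rw [if_pos hi, if_pos hi]
              · rw [if_neg hi, if_neg hi]
            rw [e1, e2] at h3
            exact h3)
  refine ⟨f, fun k => ?_⟩
  have heq : f k = f (k + 1) ↔ p k 0 = p k 1 := by
    constructor
    · intro h
      apply hV.lev.eq
      rw [← hp k, ← hf1 k (k + 1), h, hlv.self]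
    · intro h
      apply hV.lev.eq
      rw [hf1 k (k + 1), hp k, h, hlv.self]
  refine Prod.ext ?_ ?_
  · funext a b
    show (![f k, f (k + 1)] a = ![f k, f (k + 1)] b) = (p k a = p k b)
    apply propext
    fin_cases a <;> fin_cases b
    · exact ⟨fun _ => rfl, fun _ => rfl⟩
    · exact heq
    · exact ⟨fun h => (heq.mp h.symm).symm, fun h => (heq.mpr h.symm).symm⟩
    · exact ⟨fun _ => rfl, fun _ => rfl⟩
  · funext l z
    show 𝔹 l (fun i => ![f k, f (k + 1)] (z i)) = 𝔹 l (fun i => p k (z i))
    apply propext
    have h3 := hf2 k l (fun i => if z i = 0 then k else k + 1) (by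
      intro i
      by_cases hi : z i = 0
      · simp [hi]
      · simp [hi])
    have e1 : (fun i => f (if z i = 0 then k else k + 1)) =
        fun i => ![f k, f (k + 1)] (z i) := by
      funext i
      rcases Fin.exists_fin_two.mp ⟨z i, rfl⟩ with hi | hi
      · rw [hi, if_pos rfl]
        rfl
      · rw [hi, if_neg one_ne_zero]
        rfl
    have e2 : (fun i => if (if z i = 0 then k else k + 1) = k then p k 0 else p k 1) =
        fun i => p k (z i) := by
      funext i
      rcases Fin.exists_fin_two.mp ⟨z i, rfl⟩ with hi | hi
      · rw [hi, if_pos rfl, if_pos rfl]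
      · rw [hi, if_neg one_ne_zero, if_neg (fin_succ_ne k)]
    have h4 : 𝔹 l (fun i => f (if z i = 0 then k else k + 1)) ↔
        𝔹 l (fun i => if (if z i = 0 then k else k + 1) = k then p k 0 else p k 1) := h3
    rw [e1, e2] at h4
    exact h4

end Pool.Agent.H99.CHL
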