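import Pool.Agent.H72.CH.Targets
import Pool.Agent.H44.FB.Basics

/-!
# Board chl_modules, row ZZN: closure under paths of names with steps of one ordered type
-/

set_option autoImplicit false
set_option linter.unusedVariables false

namespace Pool.Agent.H99.CHL

open Pool.Agent.H68.BP Pool.Agent.H58.SF Pool.Agent.H53.NR
open Pool.Agent.H57.AR (tp ty Ty)
open Pool.Agent.H44.FB
open Pool.Agent.H72.CH
open Function

variable {N : Type} {δ : Sig} {m : ℕ}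

/-- a path for the task `(l, a, b, c, d)` with names in `J'` and buckets `bk` -/
def Sol (𝔻 : Str δ N) (st : N → Fin m) (enc : N → ℕ) (J' : Finset N) (bk : N → ℕ) (l : ℕ)
    (a b c d : Fl st) : Prop :=
  ∃ (L : ℕ) (x : Fin (L + 1) → Fl st) (v : Fin L → Fl st), x 0 = c ∧ x (Fin.last L) = d ∧
    (∀ k i, (x k).1 i ∈ J') ∧ (∀ k i, (v k).1 i ∈ J') ∧
    (∀ k : Fin L, tp 𝔻 (Sum.elim (x k.castSucc).1 (v k).1) = tp 𝔻 (Sum.elim a.1 b.1) ∧
      tp 𝔻 (Sum.elim (x k.succ).1 (v k).1) = tp 𝔻 (Sum.elim a.1 b.1)) ∧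
    (∀ k (i : Fin m), l ≤ (i : ℕ) → bk ((x k).1 i) = 1) ∧
    ∀ k (i : Fin m), l ≤ (i : ℕ) → bk ((v k).1 i) = if enc (a.1 i) < enc (b.1 i) then 2 else 0

theorem sol_mono {𝔻 : Str δ N} {st : N → Fin m} {enc : N → ℕ} {J₁ J₂ : Finset N}
    {bk bk' : N → ℕ} {l : ℕ} {a b c d : Fl st} (h : Sol 𝔻 st enc J₁ bk l a b c d)
    (hJ : J₁ ⊆ J₂) (hb : ∀ p ∈ J₁, bk' p = bk p) : Sol 𝔻 st enc J₂ bk' l a b c d := by
  obtain ⟨L, x, v, h0, h1, hx, hv, ht, hbx, hbv⟩ := h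
  refine ⟨L, x, v, h0, h1, fun k i => hJ (hx k i), fun k i => hJ (hv k i), ht, ?_, ?_⟩
  · intro k i hi
    rw [hb _ (hx k i)]
    exact hbx k i hi
  · intro k i hi
    rw [hb _ (hv k i)]
    exact hbv k i hi

open Classical in
theorem zz_step {𝔻 : Str δ N} {st : N → Fin m} {L : ℕ} (hN : NpC 𝔻 st L) (enc : N → ℕ)
    (J J₁ : Finset N) (hJ : J ⊆ J₁) (bk : N → ℕ) (hb2 : ∀ p, bk p ≤ 2) (hb1 : ∀ p ∈ J, bk p = 1)
    (l : ℕ) (a b c d : Fl st) (hcd : ∀ i, c.1 i ∈ J ∧ d.1 i ∈ J) (hl : l ≤ m)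
    (hab : ∀ i : Fin m, a.1 i = b.1 i ↔ (i : ℕ) < l) (hag : Agr l c.1 d.1) :
    ∃ (J₂ : Finset N) (bk' : N → ℕ), J₁ ⊆ J₂ ∧ (∀ p, bk' p ≤ 2) ∧ (∀ p ∈ J₁, bk' p = bk p) ∧
      Sol 𝔻 st enc J₂ bk' l a b c d := by
  obtain ⟨x, v, h0, h1, ht, hx, hv, hvx⟩ := hN l a b c d J₁ hl hab hag
  refine ⟨J₁ ∪ (Finset.univ.image (fun q : Fin (L + 1) × Fin m => (x q.1).1 q.2) ∪
    Finset.univ.image (fun q : Fin L × Fin m => (v q.1).1 q.2)),
    fun p => if p ∈ J₁ then bk p else if (∃ k i, l ≤ ((i : Fin m) : ℕ) ∧ (v k).1 i = p) then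
      (if enc (a.1 (st p)) < enc (b.1 (st p)) then 2 else 0) else 1, ?_, ?_, ?_, ?_⟩
  · exact Finset.subset_union_left
  · intro p
    show (if p ∈ J₁ then bk p else if (∃ k i, l ≤ ((i : Fin m) : ℕ) ∧ (v k).1 i = p) then
      (if enc (a.1 (st p)) < enc (b.1 (st p)) then 2 else 0) else 1) ≤ 2
    split_ifs
    · exact hb2 p
    · exact le_rfl
    · exact Nat.zero_le _
    · exact one_le_two
  · intro p hp
    exact if_pos hp
  · refine ⟨L, x, v, h0, h1, ?_, ?_, ht, ?_, ?_⟩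
    · intro k i
      refine Finset.mem_union_right _ (Finset.mem_union_left _ ?_)
      exact Finset.mem_image.mpr ⟨(k, i), Finset.mem_univ _, rfl⟩
    · intro k i
      refine Finset.mem_union_right _ (Finset.mem_union_right _ ?_)
      exact Finset.mem_image.mpr ⟨(k, i), Finset.mem_univ _, rfl⟩
    · intro k i hi
      show (if (x k).1 i ∈ J₁ then bk ((x k).1 i) else
        if (∃ k' i', l ≤ ((i' : Fin m) : ℕ) ∧ (v k').1 i' = (x k).1 i) then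
        (if enc (a.1 (st ((x k).1 i))) < enc (b.1 (st ((x k).1 i))) then 2 else 0) else 1) = 1
      by_cases hm : (x k).1 i ∈ J₁
      · rw [if_pos hm]
        rcases hx k i hm with h2 | h2
        · rw [h2]
          exact hb1 _ (hcd i).1
        · rw [h2]
          exact hb1 _ (hcd i).2
      · rw [if_neg hm, if_neg]
        rintro ⟨k', i', hi', he⟩
        have h3 : i' = i := by
          have h4 := congrArg st he
          rw [(v k').2 i', (x k).2 i] at h4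
          exact h4
        subst h3
        exact absurd (hvx k' k i' he) (not_lt.mpr hi)
    · intro k i hi
      show (if (v k).1 i ∈ J₁ then bk ((v k).1 i) else
        if (∃ k' i', l ≤ ((i' : Fin m) : ℕ) ∧ (v k').1 i' = (v k).1 i) then
        (if enc (a.1 (st ((v k).1 i))) < enc (b.1 (st ((v k).1 i))) then 2 else 0) else 1) = _
      have hm : (v k).1 i ∉ J₁ := fun hm => absurd (hv k i hm) (not_lt.mpr hi)
      rw [if_neg hm, if_pos ⟨k, i, hi, rfl⟩, (v k).2 i]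

theorem zz_ind {𝔻 : Str δ N} {st : N → Fin m} {L : ℕ} (hN : NpC 𝔻 st L) (enc : N → ℕ)
    (J : Finset N) (T : Finset (ℕ × Fl st × Fl st × Fl st × Fl st))
    (hT : ∀ t ∈ T, t.1 ≤ m ∧ (∀ i : Fin m, t.2.1.1 i = t.2.2.1.1 i ↔ (i : ℕ) < t.1) ∧
      Agr t.1 t.2.2.2.1.1 t.2.2.2.2.1 ∧
      ∀ i, t.2.2.2.1.1 i ∈ J ∧ t.2.2.2.2.1 i ∈ J) :
    ∃ (J' : Finset N) (bk : N → ℕ), J ⊆ J' ∧ (∀ p, bk p ≤ 2) ∧ (∀ p ∈ J, bk p = 1) ∧
      ∀ t ∈ T, Sol 𝔻 st enc J' bk t.1 t.2.1 t.2.2.1 t.2.2.2.1 t.2.2.2.2 := by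
  classical
  induction T using Finset.induction_on with
  | empty =>
    exact ⟨J, fun _ => 1, Finset.Subset.refl _, fun _ => one_le_two, fun _ _ => rfl,
      fun t ht => absurd ht (Finset.notMem_empty t)⟩
  | insert t T _ ih =>
    obtain ⟨J₁, bk, hJ, hb2, hb1, hS⟩ := ih fun t ht => hT t (Finset.mem_insert_of_mem ht)
    obtain ⟨hl, hab, hag, hcd⟩ := hT t (Finset.mem_insert_self t T)
    obtain ⟨J₂, bk', hJ2, hb2', hb', hS'⟩ := zz_step hN enc J J₁ hJ bk hb2 hb1 t.1 t.2.1 t.2.2.1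
      t.2.2.2.1 t.2.2.2.2 hcd hl hab hag
    refine ⟨J₂, bk', hJ.trans hJ2, hb2', fun p hp => (hb' p (hJ hp)).trans (hb1 p hp), ?_⟩
    intro t' ht'
    rcases Finset.mem_insert.mp ht' with h | h
    · subst h
      exact hS'
    · exact sol_mono (hS t' h) hJ2 hb'

/-- comparison of keys -/
theorem key_lt {B e e' A A' : ℕ} (he : e < B) (he' : e' < B) :
    e + B * A < e' + B * A' ↔ A < A' ∨ (A = A' ∧ e < e') := by
  constructor
  · intro h
    rcases lt_trichotomy A A' with h1 | h1 | h1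
    · exact Or.inl h1
    · subst h1
      exact Or.inr ⟨rfl, by omega⟩
    · exfalso
      have h2 : B * (A' + 1) ≤ B * A := Nat.mul_le_mul_left B h1
      rw [Nat.mul_add, Nat.mul_one] at h2
      omega
  · rintro (h | ⟨h, h'⟩)
    · have h2 : B * (A + 1) ≤ B * A' := Nat.mul_le_mul_left B h
      rw [Nat.mul_add, Nat.mul_one] at h2
      omega
    · subst h
      omega

theorem zz_ote {𝔻 : Str δ N} {st : N → Fin m} {enc : N → ℕ} (hinj : Injective enc)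
    {J J' : Finset N} {bk : N → ℕ} (hJ : J ⊆ J') (hb2 : ∀ p, bk p ≤ 2) (hb1 : ∀ p ∈ J, bk p = 1)
    {B : ℕ} (hB : ∀ p ∈ J', enc p < B) {l : ℕ} {a b x v : Fl st}
    (hab : ∀ i : Fin m, a.1 i = b.1 i ↔ (i : ℕ) < l) (ha : ∀ i, a.1 i ∈ J) (hb : ∀ i, b.1 i ∈ J)
    (hx : ∀ i, x.1 i ∈ J') (hv : ∀ i, v.1 i ∈ J')
    (ht : tp 𝔻 (Sum.elim x.1 v.1) = tp 𝔻 (Sum.elim a.1 b.1))
    (hbx : ∀ i : Fin m, l ≤ (i : ℕ) → bk (x.1 i) = 1)
    (hbv : ∀ i : Fin m, l ≤ (i : ℕ) → bk (v.1 i) = if enc (a.1 i) < enc (b.1 i) then 2 else 0) :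
    Ote 𝔻 (fun p => enc p + B * (3 * (st p : ℕ) + bk p)) x.1 v.1 a.1 b.1 := by
  refine ⟨ht, ?_⟩
  -- different sorts
  have hdiff : ∀ p p' : N, p ∈ J' → p' ∈ J' → st p ≠ st p' →
      (enc p + B * (3 * (st p : ℕ) + bk p) < enc p' + B * (3 * (st p' : ℕ) + bk p') ↔
        st p < st p') := by
    intro p p' hp hp' hne
    rw [key_lt (hB p hp) (hB p' hp')]
    have h1 := hb2 p
    have h2 := hb2 p'
    have h3 : (st p : ℕ) ≠ (st p' : ℕ) := fun h => hne (Fin.ext h)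
    rw [Fin.lt_def]
    omega
  have hsame : ∀ i : Fin m, (enc (x.1 i) + B * (3 * (st (x.1 i) : ℕ) + bk (x.1 i)) <
      enc (v.1 i) + B * (3 * (st (v.1 i) : ℕ) + bk (v.1 i)) ↔
      enc (a.1 i) + B * (3 * (st (a.1 i) : ℕ) + bk (a.1 i)) <
      enc (b.1 i) + B * (3 * (st (b.1 i) : ℕ) + bk (b.1 i))) ∧
      (enc (v.1 i) + B * (3 * (st (v.1 i) : ℕ) + bk (v.1 i)) <
      enc (x.1 i) + B * (3 * (st (x.1 i) : ℕ) + bk (x.1 i)) ↔
      enc (b.1 i) + B * (3 * (st (b.1 i) : ℕ) + bk (b.1 i)) <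
      enc (a.1 i) + B * (3 * (st (a.1 i) : ℕ) + bk (a.1 i))) := by
    intro i
    rcases lt_or_ge (i : ℕ) l with hi | hi
    · have h1 : a.1 i = b.1 i := (hab i).mpr hi
      have h2 : x.1 i = v.1 i := (eq_of_tp ht (Sum.inl i) (Sum.inr i)).mpr h1
      rw [h1, h2]
      simp only [lt_self_iff_false, and_self]
    · have hne : a.1 i ≠ b.1 i := fun h => absurd ((hab i).mp h) (not_lt.mpr hi)
      have hen : enc (a.1 i) ≠ enc (b.1 i) := fun h => hne (hinj h)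
      rw [key_lt (hB _ (hx i)) (hB _ (hv i)), key_lt (hB _ (hv i)) (hB _ (hx i)),
        key_lt (hB _ (hJ (ha i))) (hB _ (hJ (hb i))),
        key_lt (hB _ (hJ (hb i))) (hB _ (hJ (ha i))), x.2 i, v.2 i, a.2 i, b.2 i,
        hb1 _ (ha i), hb1 _ (hb i), hbx i hi, hbv i hi]
      split_ifs with h
      · constructor <;> omega
      · constructor <;> omega
  rintro (i | i) (j | j)
  · show enc (x.1 i) + B * (3 * (st (x.1 i) : ℕ) + bk (x.1 i)) <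
      enc (x.1 j) + B * (3 * (st (x.1 j) : ℕ) + bk (x.1 j)) ↔
      enc (a.1 i) + B * (3 * (st (a.1 i) : ℕ) + bk (a.1 i)) <
      enc (a.1 j) + B * (3 * (st (a.1 j) : ℕ) + bk (a.1 j))
    by_cases hij : i = j
    · subst hij
      simp only [lt_self_iff_false]
    · rw [hdiff _ _ (hx i) (hx j) (by rw [x.2 i, x.2 j]; exact hij),
        hdiff _ _ (hJ (ha i)) (hJ (ha j)) (by rw [a.2 i, a.2 j]; exact hij),
        x.2 i, x.2 j, a.2 i, a.2 j]
  · show enc (x.1 i) + B * (3 * (st (x.1 i) : ℕ) + bk (x.1 i)) <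
      enc (v.1 j) + B * (3 * (st (v.1 j) : ℕ) + bk (v.1 j)) ↔
      enc (a.1 i) + B * (3 * (st (a.1 i) : ℕ) + bk (a.1 i)) <
      enc (b.1 j) + B * (3 * (st (b.1 j) : ℕ) + bk (b.1 j))
    by_cases hij : i = j
    · subst hij
      exact (hsame i).1
    · rw [hdiff _ _ (hx i) (hv j) (by rw [x.2 i, v.2 j]; exact hij),
        hdiff _ _ (hJ (ha i)) (hJ (hb j)) (by rw [a.2 i, b.2 j]; exact hij),
        x.2 i, v.2 j, a.2 i, b.2 j]
  · show enc (v.1 i) + B * (3 * (st (v.1 i) : ℕ) + bk (v.1 i)) <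
      enc (x.1 j) + B * (3 * (st (x.1 j) : ℕ) + bk (x.1 j)) ↔
      enc (b.1 i) + B * (3 * (st (b.1 i) : ℕ) + bk (b.1 i)) <
      enc (a.1 j) + B * (3 * (st (a.1 j) : ℕ) + bk (a.1 j))
    by_cases hij : i = j
    · subst hij
      exact (hsame i).2
    · rw [hdiff _ _ (hv i) (hx j) (by rw [v.2 i, x.2 j]; exact hij),
        hdiff _ _ (hJ (hb i)) (hJ (ha j)) (by rw [b.2 i, a.2 j]; exact hij),
        v.2 i, x.2 j, b.2 i, a.2 j]
  · show enc (v.1 i) + B * (3 * (st (v.1 i) : ℕ) + bk (v.1 i)) <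
      enc (v.1 j) + B * (3 * (st (v.1 j) : ℕ) + bk (v.1 j)) ↔
      enc (b.1 i) + B * (3 * (st (b.1 i) : ℕ) + bk (b.1 i)) <
      enc (b.1 j) + B * (3 * (st (b.1 j) : ℕ) + bk (b.1 j))
    by_cases hij : i = j
    · subst hij
      simp only [lt_self_iff_false]
    · rw [hdiff _ _ (hv i) (hv j) (by rw [v.2 i, v.2 j]; exact hij),
        hdiff _ _ (hJ (hb i)) (hJ (hb j)) (by rw [b.2 i, b.2 j]; exact hij),
        v.2 i, v.2 j, b.2 i, b.2 j]

/-- the flags with names in a finite set -/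
theorem fl_fin (st : N → Fin m) (J : Finset N) : {u : Fl st | ∀ i, u.1 i ∈ J}.Finite := by
  classical
  have h : {u : Fl st | ∀ i, u.1 i ∈ J} = (fun u : Fl st => u.1) ⁻¹'
      {u : Fin m → N | ∀ i, u i ∈ (J : Set N)} := by
    ext u
    simp
  rw [h]
  refine Set.Finite.preimage (Subtype.val_injective.injOn) ?_
  have h2 : {u : Fin m → N | ∀ i, u i ∈ (J : Set N)} =
      Set.pi Set.univ (fun _ : Fin m => (J : Set N)) := by
    ext u
    simp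
  rw [h2]
  exact Set.Finite.pi (fun _ => J.finite_toSet)

theorem pf_ZZN : T_ZZN := by
  classical
  intro N δ 𝔻 m st hc hL J
  obtain ⟨L, hL⟩ := hL
  obtain ⟨enc, hinj⟩ := hc
  have hF := fl_fin st J
  have hTf : (Set.Iic m ×ˢ ({u : Fl st | ∀ i, u.1 i ∈ J} ×ˢ ({u : Fl st | ∀ i, u.1 i ∈ J} ×ˢ
      ({u : Fl st | ∀ i, u.1 i ∈ J} ×ˢ {u : Fl st | ∀ i, u.1 i ∈ J})))).Finite :=
    (Set.finite_Iic m).prod (hF.prod (hF.prod (hF.prod hF)))
  obtain ⟨J', bk, hJ, hb2, hb1, hS⟩ := zz_ind hL enc J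
    (hTf.toFinset.filter (fun t => (∀ i : Fin m, t.2.1.1 i = t.2.2.1.1 i ↔ (i : ℕ) < t.1) ∧
      Agr t.1 t.2.2.2.1.1 t.2.2.2.2.1)) (by
      intro t ht
      rw [Finset.mem_filter, Set.Finite.mem_toFinset] at ht
      obtain ⟨⟨h1, h2, h3, h4, h5⟩, h6, h7⟩ := ht
      exact ⟨h1, h6, h7, fun i => ⟨h4 i, h5 i⟩⟩)
  obtain ⟨B, hB⟩ : ∃ B : ℕ, ∀ p ∈ J', enc p < B :=
    ⟨J'.sup enc + 1, fun p hp => Nat.lt_succ_of_le (Finset.le_sup hp)⟩
  refine ⟨J', fun p => enc p + B * (3 * (st p : ℕ) + bk p), hJ, ?_, ?_⟩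
  · intro p hp p' hp' h
    have h1 : enc p + B * (3 * (st p : ℕ) + bk p) = enc p' + B * (3 * (st p' : ℕ) + bk p') := h
    have h2 := congrArg (· % B) h1
    simp only [Nat.add_mul_mod_self_left] at h2
    rw [Nat.mod_eq_of_lt (hB p hp), Nat.mod_eq_of_lt (hB p' hp')] at h2
    exact hinj h2
  · intro l a b c d hi hl hab hag
    obtain ⟨L', x, v, h0, h1, hx, hv, ht, hbx, hbv⟩ := hS (l, a, b, c, d) (by
      rw [Finset.mem_filter, Set.Finite.mem_toFinset]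
      exact ⟨⟨hl, fun i => (hi i).1, fun i => (hi i).2.1, fun i => (hi i).2.2.1,
        fun i => (hi i).2.2.2⟩, hab, hag⟩)
    refine ⟨L', x, v, h0, h1, hx, hv, fun k => ⟨?_, ?_⟩⟩
    · exact zz_ote hinj hJ hb2 hb1 hB hab (fun i => (hi i).1) (fun i => (hi i).2.1)
        (hx _) (hv _) (ht k).1 (hbx _) (hbv k)
    · exact zz_ote hinj hJ hb2 hb1 hB hab (fun i => (hi i).1) (fun i => (hi i).2.1)
        (hx _) (hv _) (ht k).2 (hbx _) (hbv k)

end Pool.Agent.H99.CHL
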